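import Pool.Agent.helper33.QX.SpecA
import Pool.Agent.helper62.QU.All

/-!
# Row KLF of the project QX (MP_07c750): from ALG to the key inequality
-/

open scoped MatrixGroups ContDiff Topology UpperHalfPlane
open UpperHalfPlane MeasureTheory Filter Set
open Pool.Agent.QU

namespace Pool.Agent.QX

theorem KLF_cd {u : ℍ → ℝ} (hu : CD ∞ u) : CD 2 u := by
  obtain ⟨-, hm, -⟩ := CA1 ℝ
  exact hm u 2 ∞ (WithTop.coe_le_coe.2 (le_top : (2 : ℕ∞) ≤ ⊤)) hu

/-- the numerical estimate of one term -/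
theorem KLF_num (m μ F a G C : ℝ) (j : ℕ) (hm : 0 ≤ m) (hμ : (j : ℝ) + 5 / 4 ≤ μ) (hF : 0 ≤ F)
    (ha : 0 < a) (hC : 0 ≤ C)
    (h1 : ((j : ℝ) + 1) * (Real.log (2 + μ)) ^ 2 / (1 + μ) * F ≤ m * a)
    (h2 : |G| ≤ C * (Real.sqrt (Real.log (2 + μ) / Real.sqrt μ * (Real.sqrt F * Real.sqrt a)) *
      Real.sqrt a + a / Real.sqrt μ)) :
    |G / a| ≤ C * (Real.sqrt (Real.sqrt (2 * m * (1 / ((j : ℝ) + 1)))) +
      Real.sqrt (1 / ((j : ℝ) + 1))) := by
  have hj : (0 : ℝ) ≤ j := by positivity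
  have hj1 : (0 : ℝ) < (j : ℝ) + 1 := by positivity
  have hμ0 : 0 < μ := by linarith
  have hμ1 : 1 ≤ μ := by linarith
  have hs : 0 < Real.sqrt μ := Real.sqrt_pos.2 hμ0
  have hl : 0 < Real.log (2 + μ) := Real.log_pos (by linarith)
  have hsa : 0 < Real.sqrt a := Real.sqrt_pos.2 ha
  have haa : Real.sqrt a * Real.sqrt a = a := Real.mul_self_sqrt ha.le
  -- the quotient
  rw [abs_div, abs_of_pos ha, div_le_iff₀ ha]
  refine h2.trans ?_
  rw [mul_assoc]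
  refine mul_le_mul_of_nonneg_left ?_ hC
  rw [add_mul]
  refine add_le_add ?_ ?_
  · -- first term
    have e1 : Real.log (2 + μ) / Real.sqrt μ * (Real.sqrt F * Real.sqrt a) =
        (Real.log (2 + μ) / Real.sqrt μ * Real.sqrt (F / a)) * a := by
      have e0 : Real.sqrt F * Real.sqrt a = Real.sqrt F / Real.sqrt a * a := by
        rw [div_mul_eq_mul_div, eq_div_iff hsa.ne', mul_assoc, haa]
      rw [Real.sqrt_div hF, e0]
      ring
    have hx0 : 0 ≤ Real.log (2 + μ) / Real.sqrt μ * Real.sqrt (F / a) := by positivity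
    rw [e1, Real.sqrt_mul hx0, mul_assoc, haa]
    refine mul_le_mul_of_nonneg_right ?_ ha.le
    refine Real.sqrt_le_sqrt ?_
    refine Real.le_sqrt_of_sq_le ?_
    have e2 : (Real.log (2 + μ) / Real.sqrt μ * Real.sqrt (F / a)) ^ 2 =
        (Real.log (2 + μ)) ^ 2 / μ * (F / a) := by
      rw [mul_pow, div_pow, Real.sq_sqrt hμ0.le, Real.sq_sqrt (by positivity)]
    rw [e2]
    have h3 : (Real.log (2 + μ)) ^ 2 * F * ((j : ℝ) + 1) ≤ m * a * (1 + μ) := by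
      have : ((j : ℝ) + 1) * (Real.log (2 + μ)) ^ 2 / (1 + μ) * F =
          (Real.log (2 + μ)) ^ 2 * F * ((j : ℝ) + 1) / (1 + μ) := by ring
      rw [this, div_le_iff₀ (by linarith)] at h1
      exact h1
    rw [div_mul_div_comm, mul_one_div, div_le_div_iff₀ (by positivity) hj1]
    calc (Real.log (2 + μ)) ^ 2 * F * ((j : ℝ) + 1) ≤ m * a * (1 + μ) := h3
      _ ≤ m * a * (2 * μ) := by
          refine mul_le_mul_of_nonneg_left (by linarith) (by positivity)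
      _ = 2 * m * (μ * a) := by ring
  · -- second term
    rw [div_le_iff₀ hs]
    have h3 : 1 ≤ Real.sqrt (1 / ((j : ℝ) + 1)) * Real.sqrt μ := by
      rw [← Real.sqrt_mul (by positivity), Real.one_le_sqrt, one_div, inv_mul_eq_div,
        le_div_iff₀ hj1]
      linarith
    calc a = 1 * a := (one_mul a).symm
      _ ≤ (Real.sqrt (1 / ((j : ℝ) + 1)) * Real.sqrt μ) * a :=
          mul_le_mul_of_nonneg_right h3 ha.le
      _ = Real.sqrt (1 / ((j : ℝ) + 1)) * a * Real.sqrt μ := by ring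

theorem KLF_core (hALG : ALG_stmt) (h2 : LAK_stmt) (h3 : CVS_stmt) (h4 : CVB_stmt) (h8 : DOB_stmt)
    (h9 : BDD_stmt) (h11 : MEA_stmt)
    (Γ : Subgroup SL(2, ℝ)) (Fd : Set ℍ) (h : ℍ → ℝ) (hΓ : SurfaceGroup Γ) (hF : NiceDom Γ Fd)
    (hh : Inv Γ h) (hmean : (∫ z in Fd, h z) = 0) (δ m : ℝ) (hδ : 0 < δ)
    (hm : ∀ z, |h z| ≤ m) (μ : ℕ → ℝ) (u : ℕ → ℍ → ℝ) (hμ : ∀ j : ℕ, (j : ℝ) + 5 / 4 ≤ μ j)
    (hu : ∀ j, CD ∞ (u j)) (hs : ∀ j, HasCompactSupport (u j))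
    (hbad : ∀ j : ℕ, δ * (∫ z : ℍ, u j z ^ 2) +
      ((j : ℝ) + 1) * (Real.log (2 + μ j)) ^ 2 / (1 + μ j) *
        ∫ z : ℍ, (lap (u j) z - μ j * u j z) ^ 2 < ∫ z : ℍ, h z * u j z ^ 2) :
    False := by
  have hm0 : 0 ≤ m := (abs_nonneg _).trans (hm UpperHalfPlane.I)
  obtain ⟨a, ha⟩ : ∃ a : ℕ → ℝ, ∀ j, a j = ∫ z : ℍ, u j z ^ 2 := ⟨_, fun _ => rfl⟩
  obtain ⟨F, hFd⟩ : ∃ F : ℕ → ℝ, ∀ j, F j = ∫ z : ℍ, (lap (u j) z - μ j * u j z) ^ 2 :=
    ⟨_, fun _ => rfl⟩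
  have a0 : ∀ j, 0 ≤ a j := fun j => by
    rw [ha]
    exact integral_nonneg fun z => sq_nonneg _
  have F0 : ∀ j, 0 ≤ F j := fun j => by
    rw [hFd]
    exact integral_nonneg fun z => sq_nonneg _
  have cu : ∀ j, Continuous (u j) := fun j => KLI_u_cont (KLF_cd (hu j))
  have hbad' : ∀ j : ℕ, δ * a j + ((j : ℝ) + 1) * (Real.log (2 + μ j)) ^ 2 / (1 + μ j) * F j <
      ∫ z : ℍ, h z * u j z ^ 2 := fun j => by
    rw [ha, hFd]
    exact hbad j
  have hcoef : ∀ j : ℕ, 0 ≤ ((j : ℝ) + 1) * (Real.log (2 + μ j)) ^ 2 / (1 + μ j) * F j := by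
    intro j
    have h1 := hμ j
    have hj : (0 : ℝ) ≤ j := by positivity
    have : 0 < 1 + μ j := by linarith
    have := F0 j
    positivity
  have hup : ∀ j, (∫ z : ℍ, h z * u j z ^ 2) ≤ m * a j := by
    intro j
    have h1 := KLI_abs (w := fun z => u j z ^ 2) m hh.1 hm ((cu j).pow 2) (KLI_sq_supp (hs j))
    have h2' : ∫ z : ℍ, |u j z ^ 2| = a j := by
      rw [ha]
      refine integral_congr_ae (Eventually.of_forall fun z => ?_)
      show |u j z ^ 2| = u j z ^ 2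
      exact abs_of_nonneg (sq_nonneg _)
    rw [h2'] at h1
    exact (le_abs_self _).trans h1
  have apos : ∀ j, 0 < a j := by
    intro j
    rcases (a0 j).lt_or_eq with h1 | h1
    · exact h1
    · exfalso
      have h2' := hbad' j
      have h3' := hup j
      rw [← h1] at h2' h3'
      have h4' := hcoef j
      linarith
  have hsmall : ∀ j : ℕ, ((j : ℝ) + 1) * (Real.log (2 + μ j)) ^ 2 / (1 + μ j) * F j ≤ m * a j := by
    intro j
    have h2' := hbad' j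
    have h3' := hup j
    have h4' : 0 < δ * a j := mul_pos hδ (apos j)
    linarith
  -- the weights
  obtain ⟨W0, hW0⟩ : ∃ W : ℕ → ℍ → ℝ, W = fun j z => u j z ^ 2 := ⟨_, rfl⟩
  have cW0 : ∀ j, Continuous (W0 j) := fun j => by
    rw [hW0]
    exact (cu j).pow 2
  have sW0 : ∀ j, HasCompactSupport (W0 j) := fun j => by
    rw [hW0]
    exact KLI_sq_supp (hs j)
  have B0 : ∀ j, (∫ z : ℍ, |W0 j z|) / a j ≤ 1 := by
    intro j
    have : ∫ z : ℍ, |W0 j z| = a j := by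
      rw [ha, hW0]
      refine integral_congr_ae (Eventually.of_forall fun z => ?_)
      show |u j z ^ 2| = u j z ^ 2
      exact abs_of_nonneg (sq_nonneg _)
    rw [this, div_self (apos j).ne']
  have bf0 := KLI_BFun h9 Γ Fd hΓ hF W0 a 1 cW0 sW0 apos B0
  have t0 : ∀ g : ℍ → ℝ, Inv Γ g → Tendsto (fun j => (∫ z : ℍ, g z * W0 j z) / a j)
      (hyperfilter ℕ : Filter ℕ) (𝓝 (KLI_L W0 a g)) := by
    intro g hg
    obtain ⟨mg, hmg⟩ := (h9 Γ Fd g hΓ hF hg).1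
    exact (KLI_Ltend W0 a 1 cW0 sW0 apos B0 g mg hg.1 hmg).1
  have hU : (hyperfilter ℕ : Filter ℕ) ≤ atTop := Nat.hyperfilter_le_atTop
  have lerr : ∀ C : ℝ, Tendsto (fun j : ℕ => C * (Real.sqrt (Real.sqrt (2 * m * (1 / ((j : ℝ) + 1)))) +
      Real.sqrt (1 / ((j : ℝ) + 1)))) (hyperfilter ℕ : Filter ℕ) (𝓝 0) := by
    intro C
    refine Tendsto.mono_left ?_ hU
    have h0 := tendsto_one_div_add_atTop_nhds_zero_nat (𝕜 := ℝ)
    have hsq : ∀ x : ℕ → ℝ, Tendsto x atTop (𝓝 0) →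
        Tendsto (fun j => Real.sqrt (x j)) atTop (𝓝 0) := by
      intro x hx
      have := (Real.continuous_sqrt.tendsto 0).comp hx
      rw [Real.sqrt_zero] at this
      exact this
    have h1 := h0.const_mul (2 * m)
    rw [mul_zero] at h1
    have h5 := ((hsq _ (hsq _ h1)).add (hsq _ h0)).const_mul C
    rw [add_zero, mul_zero] at h5
    exact h5
  have hmea := h11 Γ Fd (KLI_L W0 a) hΓ hF bf0 (by
    intro κ f hκ hf
    obtain ⟨-, -, -, -, -, -, -, h48⟩ := h4 ℝ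
    have hl : lap (conv κ f) = conv (LL κ) f := by
      funext z
      exact (h3 ℝ κ f hκ hf.1).2.2.2 z
    have i2 : Inv Γ (lap (conv κ f)) := by
      rw [hl]
      exact h48 Γ (LL κ) f (h2.2.2.2.1 κ hκ) hf
    obtain ⟨C, hC0, hC⟩ := hALG Γ κ f hΓ hκ hf
    refine KLI_zero _ _ _ (t0 _ i2) (lerr C) fun j => ?_
    have h5 := hC (u j) (μ j) (by
      have h1 := hμ j
      have hj : (0 : ℝ) ≤ j := by positivity
      linarith) (hu j) (hs j)
    simp only at h5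
    rw [← ha, ← hFd] at h5
    refine KLF_num m (μ j) (F j) (a j) _ C j hm0 (hμ j) (F0 j) (apos j) hC0 (hsmall j) ?_
    rw [hW0]
    exact h5) h hh
  rw [hmean, mul_zero] at hmea
  obtain ⟨-, -, hv1, hv2, -⟩ := h8 Γ Fd hΓ hF
  have hv : 0 < (volume Fd).toReal := ENNReal.toReal_pos hv1.ne' hv2.ne
  have hz : KLI_L W0 a h = 0 := by
    rcases mul_eq_zero.1 hmea with h1 | h1
    · exact h1
    · exact absurd h1 hv.ne'
  have hge : δ ≤ KLI_L W0 a h := by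
    refine ge_of_tendsto (t0 h hh) (Filter.Eventually.of_forall fun j => ?_)
    have haj := apos j
    rw [le_div_iff₀ haj]
    have h1 := hbad' j
    have h2' := hcoef j
    rw [hW0]
    linarith
  linarith

theorem KLF_main (hKLI : KLI_stmt) (h2 : LAK_stmt) (h3 : CVS_stmt) (h4 : CVB_stmt) (h8 : DOB_stmt)
    (h9 : BDD_stmt) (h11 : MEA_stmt) : KLF_stmt := by
  intro hALG Γ Fd h hΓ hF hh hmean δ hδ
  obtain ⟨m, hm⟩ := (h9 Γ Fd h hΓ hF hh).1
  by_contra hcon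
  push Not at hcon
  have hch : ∀ j : ℕ, ∃ p : ℝ × (ℍ → ℝ), (j : ℝ) + 5 / 4 ≤ p.1 ∧ CD ∞ p.2 ∧
      HasCompactSupport p.2 ∧
      δ * (∫ z : ℍ, p.2 z ^ 2) + ((j : ℝ) + 1) * (Real.log (2 + p.1)) ^ 2 / (1 + p.1) *
        ∫ z : ℍ, (lap p.2 z - p.1 * p.2 z) ^ 2 < ∫ z : ℍ, h z * p.2 z ^ 2 := by
    intro j
    have hj : (0 : ℝ) ≤ j := by positivity
    obtain ⟨C₁, hC₁, hK⟩ := hKLI Γ Fd h hΓ hF hh hmean ((j : ℝ) + 5 / 4) δ hδ
    have hl2 : 0 < Real.log 2 := Real.log_pos (by norm_num)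
    obtain ⟨C, hCd⟩ : ∃ C : ℝ, C = C₁ * (1 + ((j : ℝ) + 5 / 4)) / (Real.log 2) ^ 2 + ((j : ℝ) + 1) :=
      ⟨_, rfl⟩
    have hA : 0 ≤ C₁ * (1 + ((j : ℝ) + 5 / 4)) / (Real.log 2) ^ 2 := by positivity
    have hC0 : 0 ≤ C := by
      rw [hCd]
      linarith
    obtain ⟨μ, u, e1, e2, e3, e4⟩ := hcon C hC0
    have hF0 : 0 ≤ ∫ z : ℍ, (lap u z - μ * u z) ^ 2 := integral_nonneg fun z => sq_nonneg _
    have hmu : (j : ℝ) + 5 / 4 < μ := by
      by_contra hle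
      push Not at hle
      have h5 := hK μ u e1 hle (KLF_cd e2) e3
      have h6 : C₁ ≤ C * (Real.log (2 + μ)) ^ 2 / (1 + μ) := by
        have hlog : Real.log 2 ≤ Real.log (2 + μ) := Real.log_le_log (by norm_num) (by linarith)
        have hlog2 : (Real.log 2) ^ 2 ≤ (Real.log (2 + μ)) ^ 2 := pow_le_pow_left₀ hl2.le hlog 2
        rw [le_div_iff₀ (by linarith)]
        calc C₁ * (1 + μ) ≤ C₁ * (1 + ((j : ℝ) + 5 / 4)) :=
              mul_le_mul_of_nonneg_left (by linarith) hC₁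
          _ = C₁ * (1 + ((j : ℝ) + 5 / 4)) / (Real.log 2) ^ 2 * (Real.log 2) ^ 2 := by
              rw [div_mul_cancel₀ _ (by positivity)]
          _ ≤ C * (Real.log 2) ^ 2 := by
              refine mul_le_mul_of_nonneg_right ?_ (by positivity)
              rw [hCd]
              linarith
          _ ≤ C * (Real.log (2 + μ)) ^ 2 := mul_le_mul_of_nonneg_left hlog2 hC0
      have h7 := mul_le_mul_of_nonneg_right h6 hF0
      linarith
    refine ⟨(μ, u), hmu.le, e2, e3, ?_⟩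
    have hpos : 0 < 1 + μ := by linarith
    have h6 : ((j : ℝ) + 1) * (Real.log (2 + μ)) ^ 2 / (1 + μ) ≤
        C * (Real.log (2 + μ)) ^ 2 / (1 + μ) := by
      refine div_le_div_of_nonneg_right ?_ hpos.le
      refine mul_le_mul_of_nonneg_right ?_ (sq_nonneg _)
      rw [hCd]
      linarith
    have h7 := mul_le_mul_of_nonneg_right h6 hF0
    show δ * (∫ z : ℍ, u z ^ 2) + ((j : ℝ) + 1) * (Real.log (2 + μ)) ^ 2 / (1 + μ) *
        ∫ z : ℍ, (lap u z - μ * u z) ^ 2 < ∫ z : ℍ, h z * u z ^ 2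
    linarith
  choose p hp using hch
  exact KLF_core hALG h2 h3 h4 h8 h9 h11 Γ Fd h hΓ hF hh hmean δ m hδ hm
    (fun j => (p j).1) (fun j => (p j).2) (fun j => (hp j).1)
    (fun j => (hp j).2.1) (fun j => (hp j).2.2.1) (fun j => (hp j).2.2.2)

theorem KLF : KLF_stmt := KLF_main A_KLI A_LAK A_CVS A_CVB A_DOB A_BDD A_MEA

end Pool.Agent.QX
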