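import Pool.Agent.helper72.QX.MUL
import Pool.Agent.helper82.QX.ODE
import Pool.Agent.helper11.QX.PVL
import Pool.Agent.helper11.QX.SWP
import Pool.Agent.helper37.QX.SHF
import Pool.Agent.helper56.QX.DFC
import Pool.Agent.helper48.QX.FEP
import Pool.Agent.helper56.QX.COO
import Pool.Agent.helper31.QX.CHG
import Pool.Agent.helper89.QX.HV0
import Pool.Agent.helper64.QX.HV1
import Pool.Agent.helper89.QX.HV2
import Pool.Agent.helper11.QX.HAL
import Pool.Agent.helper74.QX.FEN
import Pool.Agent.helper56.QX.IDS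
import Pool.Agent.helper11.QX.UZE
import Pool.Agent.helper97.QX.ALG
import Pool.Agent.helper33.QX.KLF

/-!
# Project QX (MP_07c750): assembly of the rows qa:X
-/

namespace Pool.Agent.QX

theorem A_FEP : FEP_stmt := FEP MUL ODE (SWP PVL) SHF DFC

theorem A_HAL : HAL_stmt := HAL COO

theorem A_FEN : FEN_stmt := FEN A_FEP COO CHG HV1

theorem A_UZE : UZE_stmt := UZE A_FEN HV0 HV1 HV2 A_HAL

theorem A_ALG : ALG_stmt := ALG A_UZE IDS

/-- the key inequality, uniform in the eigenvalue -/
theorem A_KLU : KLU_stmt := KLF A_ALG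

end Pool.Agent.QX
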