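import Pool.Agent.helper4.QX.Defs

/-!
# Project QX (MP_07c750), SpecA: the key inequality `KLU_stmt`, rows `qa:X`

Prove `X_stmt` in `Pool/Agent/<seat>/QX/X.lean` (import this file), namespace `Pool.Agent.QX`,
auxiliary lemmas prefixed `X_`. Other rows only as hypotheses. The finished theorems
`Pool.Agent.QU.A_INV, A_CA1, A_CA2, A_DXI, A_GRN, A_IDN, A_TTT, A_LAK, A_CVS, A_CVB, A_FRB, A_DOB, A_BDD,
A_MEA, A_KLI` of `Pool/Agent/helper62/QU/All.lean` may be imported and used (their statements with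
comments are in `Pool/Agent/helper62/QU/Spec.lean`).

Plan. `X = y∂_x`, `Y = y∂_y`, `D = Y - 1/2`, `Δ = -X² - D² + 1/4`, `f = Δu - μu`, `R = μ - 1/4`.
(1) In the coordinates `x`, `y = e^t` with `U = e^{-t/2} u` one has `e^{-t/2} f = -U_tt - e^{2t} U_xx - R U`. A
Fourier coefficient `w(t)` of `U` in `x` (frequency `ξ`) satisfies `w'' = (ξ² e^{2t} - R) w - g`, and the energy
`E = w'² + (R - ξ² e^{2t}) w²` satisfies `E ≤ 2 ‖w'‖ ‖g‖` for all `t` (ODE). So all of `u` except a part of size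
`(log R) ‖Du‖ ‖f‖ / R` has small horocyclic frequency (FEP, FEN).
(2) `v = hav ψ u`, an average along horocycles, is close to `u`, `Xv` is small and `D²v + R v` is small (UZE).
(3) Then `∫ g v²` nearly vanishes for `g = Δ(conv κ f)` (IDS, ALG), and the theorem follows as in QU (KLU).
-/

open scoped MatrixGroups ContDiff Topology UpperHalfPlane
open UpperHalfPlane MeasureTheory Filter Set
open Pool.Agent.QU

namespace Pool.Agent.QX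

/-- smooth functions of one variable with compact support -/
structure TK (θ : ℝ → ℝ) : Prop where
  smooth : ContDiff ℝ ∞ θ
  supp : HasCompactSupport θ

/-- the horocyclic average `∫ θ(v) u(x + v y + i y) dv` -/
noncomputable def hav (θ : ℝ → ℝ) (u : ℍ → ℝ) (z : ℍ) : ℝ :=
  ∫ v : ℝ, θ v * u ((v * z.im) +ᵥ z)

/-- `(v θ(v))'` -/
noncomputable def eu (θ : ℝ → ℝ) (v : ℝ) : ℝ := deriv (fun v => v * θ v) v

/-- the point `x + i e^t` -/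
noncomputable def pt (p : ℝ × ℝ) : ℍ := UpperHalfPlane.mk (⟨p.1, Real.exp p.2⟩ : ℂ) (Real.exp_pos p.2)

/-- `∂U/∂x` -/
noncomputable def pX (U : ℝ × ℝ → ℝ) (p : ℝ × ℝ) : ℝ := fderiv ℝ U p (1, 0)

/-- `∂U/∂t` -/
noncomputable def pT (U : ℝ × ℝ → ℝ) (p : ℝ × ℝ) : ℝ := fderiv ℝ U p (0, 1)

/-- `-U_tt - e^{2t} U_xx - R U` -/
noncomputable def GG (R : ℝ) (U : ℝ × ℝ → ℝ) (p : ℝ × ℝ) : ℝ :=
  -pT (pT U) p - Real.exp (2 * p.2) * pX (pX U) p - R * U p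

/-- the horocyclic average in the coordinates `x, t` -/
noncomputable def hp (θ : ℝ → ℝ) (U : ℝ × ℝ → ℝ) (p : ℝ × ℝ) : ℝ :=
  ∫ v : ℝ, θ v * U (p.1 + v * Real.exp p.2, p.2)

/-- cosine coefficient in `x` on `[-L, L]` -/
noncomputable def fcC (L : ℝ) (F : ℝ × ℝ → ℝ) (n : ℤ) (t : ℝ) : ℝ :=
  (2 * L)⁻¹ * ∫ x in (-L)..L, F (x, t) * Real.cos (Real.pi * n / L * x)

/-- sine coefficient in `x` on `[-L, L]` -/
noncomputable def fcS (L : ℝ) (F : ℝ × ℝ → ℝ) (n : ℤ) (t : ℝ) : ℝ :=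
  (2 * L)⁻¹ * ∫ x in (-L)..L, F (x, t) * Real.sin (Real.pi * n / L * x)

/-- the Fourier transform `∫ θ(v) e^{isv} dv` -/
noncomputable def fI (θ : ℝ → ℝ) (s : ℝ) : ℂ :=
  ∫ v : ℝ, (θ v : ℂ) * Complex.exp (Complex.I * (s * v : ℝ))

/-- **Row MUL** (short-medium). With `I = fI θ`: `|e^{isv} - 1| ≤ |sv|` gives `|I(s) - ∫θ| ≤ |s| ∫|vθ(v)|`; one
integration by parts gives `|s| |I(s)| ≤ ∫|θ'|`; and `|I| ≤ ∫|θ|`. If `∫θ = 0`: `|I| ≤ C|s|/(1+s²)` (for `|s| ≤ 1`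
from the first, `1 + s² ≤ 2`; for `|s| ≥ 1` from the second, `1/|s| ≤ 2|s|/(1+s²)`). If `∫θ = 1`: `|1 - I| ≤ C|s|` for
`|s| ≤ 1`, `≤ 1 + ∫|θ|` for `|s| ≥ 1`, where `s²/(1+s²) ≥ 1/2`. -/
def MUL_stmt : Prop := ∀ θ : ℝ → ℝ, TK θ → ∃ C : ℝ, 0 ≤ C ∧ ∀ s : ℝ,
  ((∫ v, θ v) = 0 → ‖fI θ s‖ ^ 2 ≤ C * (s ^ 2 / (1 + s ^ 2) ^ 2)) ∧
  ((∫ v, θ v) = 1 → ‖1 - fI θ s‖ ^ 2 ≤ C * (s ^ 2 / (1 + s ^ 2)))

/-- **Row ODE** (medium; one variable). `s(t) = ξ e^t`, `w'' = (s² - R) w - g`, `A = ‖w'‖ ‖g‖`. `E = w'² + (R - s²) w²`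
has `E' = -2 w' g - 2 s² w²`. So `E(t) = ∫_{-∞}^t E' ≤ 2 ∫ |w'| |g| ≤ 2A` for all `t` and, as `∫ E' = 0`, `∫ s² w² ≤ A`.
Where `s² ≤ R/2`: `w² ≤ 2E/R ≤ 4A/R`; where `s² > R/2`: `w² ≤ (2/R) s² w²`. As `s²/(1+s²) = (½ log(1+s²))'`, the integral of
`s²/(1+s²)` over `{s² ≤ R/2}` is at most `½ log(1 + R/2)` (if `ξ ≠ 0`; for `ξ = 0` the claims are trivial). So the first
integral is `≤ (4A/R) ½ log(1+R/2) + (2/R) A`. Second: `w'² = E - (R - s²) w² ≤ 2A + s² w²`,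
`∫ s²/(1+s²)² dt = [-½/(1+s²)] = ½` and `s²/(1+s²)² ≤ 1`: the integral is `≤ A + A`. -/
def ODE_stmt : Prop := ∀ (w : ℝ → ℝ) (ξ R : ℝ), ContDiff ℝ 2 w → HasCompactSupport w → 1 ≤ R →
  let A := Real.sqrt (∫ t, deriv w t ^ 2) * Real.sqrt (∫ t, (-deriv (deriv w) t +
    (ξ * Real.exp t) ^ 2 * w t - R * w t) ^ 2)
  (∫ t, (ξ * Real.exp t) ^ 2 / (1 + (ξ * Real.exp t) ^ 2) * w t ^ 2) ≤ (2 * Real.log (1 + R) + 2) / R * A ∧
  (∫ t, (ξ * Real.exp t) ^ 2 / (1 + (ξ * Real.exp t) ^ 2) ^ 2 * deriv w t ^ 2) ≤ 2 * A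

/-- **Row PVL** (short-medium). Parseval for `x ↦ F(x,t)` on `[-L, L]` (Mathlib: `hasSum_sq_fourierCoeffOn`, `fourierCoeffOn`
of the complex valued function; the `n`-th coefficient on the interval `[-L, L]` is `fcC - i fcS`, up to the factor
`(-1)^n` if the base point matters; its squared norm is `fcC² + fcS²`). -/
def PVL_stmt : Prop := ∀ (L : ℝ) (F : ℝ × ℝ → ℝ) (t : ℝ), 0 < L → Continuous F →
  HasSum (fun n : ℤ => fcC L F n t ^ 2 + fcS L F n t ^ 2) ((2 * L)⁻¹ * ∫ x in (-L)..L, F (x, t) ^ 2)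

/-- **Row SWP** (medium; from PVL). Integrate PVL over `t`: Fubini for `F²` (continuous, compact support; for `|x| ≥ L` it
vanishes) and Tonelli for the sum of nonnegative continuous functions of `t` (`lintegral_tsum`, or
`hasSum_integral_of_summable_integral_norm` after bounding the finite sums). The coefficients are continuous
functions of `t` with compact support. -/
def SWP_stmt : Prop := ∀ (L : ℝ) (F : ℝ × ℝ → ℝ), 0 < L → Continuous F → HasCompactSupport F →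
  (∀ x t, F (x, t) ≠ 0 → |x| < L) →
  (∀ n : ℤ, Continuous (fcC L F n) ∧ HasCompactSupport (fcC L F n) ∧ Continuous (fcS L F n) ∧
    HasCompactSupport (fcS L F n)) ∧
  HasSum (fun n : ℤ => ∫ t, (fcC L F n t ^ 2 + fcS L F n t ^ 2)) ((2 * L)⁻¹ * ∫ p, F p ^ 2)

/-- **Row SHF** (medium). `c_n(F)(t) = fcC - i fcS = (2L)⁻¹ ∫_ℝ F(x,t) e^{-iπnx/L} dx` (`F = 0` for `|x| ≥ L`), the same for `hp θ F`
(if `θ(v) F(x + v e^t, t) ≠ 0` then `|x| ≤ |x + v e^t| + B e^t < L`). Fubini and `x → x - v e^t`: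
`c_n(hp θ F)(t) = fI θ (πn e^t/L) c_n(F)(t)`. `hp θ F` is continuous with compact support (dominated convergence; the support of
`F` is contained in `|x| ≤ a, |t| ≤ b`, so that of `hp θ F` in `|x| ≤ a + B e^b, |t| ≤ b`). -/
def SHF_stmt : Prop := ∀ (θ : ℝ → ℝ) (L B : ℝ) (F : ℝ × ℝ → ℝ), TK θ → 0 < L → 0 ≤ B → (∀ v, θ v ≠ 0 → |v| ≤ B) →
  Continuous F → HasCompactSupport F → (∀ x t, F (x, t) ≠ 0 → |x| + B * Real.exp t < L) →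
  Continuous (hp θ F) ∧ HasCompactSupport (hp θ F) ∧ (∀ x t, hp θ F (x, t) ≠ 0 → |x| < L) ∧
  ∀ (n : ℤ) (t : ℝ),
    fcC L (hp θ F) n t ^ 2 + fcS L (hp θ F) n t ^ 2 =
      ‖fI θ (Real.pi * n / L * Real.exp t)‖ ^ 2 * (fcC L F n t ^ 2 + fcS L F n t ^ 2) ∧
    fcC L (fun p => F p - hp θ F p) n t ^ 2 + fcS L (fun p => F p - hp θ F p) n t ^ 2 =
      ‖1 - fI θ (Real.pi * n / L * Real.exp t)‖ ^ 2 * (fcC L F n t ^ 2 + fcS L F n t ^ 2)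

/-- **Row DFC** (medium). Differentiation under the integral over `[-L, L]` (all derivatives of `U` are
continuous with compact support), and `∫_{-L}^{L} U_xx cos(ax) dx = -a² ∫ U cos(ax) dx` by two integrations by parts: `U = 0`
for `|x| ≥ L`, so `U` and `U_x` vanish at `x = ±L`. `a = πn/L`. The same for `sin`. -/
def DFC_stmt : Prop := ∀ (L R : ℝ) (U : ℝ × ℝ → ℝ) (n : ℤ), 0 < L → ContDiff ℝ ∞ U → HasCompactSupport U →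
  (∀ x t, U (x, t) ≠ 0 → |x| < L) →
  (ContDiff ℝ 2 (fcC L U n) ∧ HasCompactSupport (fcC L U n) ∧
    (∀ t, deriv (fcC L U n) t = fcC L (pT U) n t) ∧
    ∀ t, -deriv (deriv (fcC L U n)) t + (Real.pi * n / L * Real.exp t) ^ 2 * fcC L U n t -
      R * fcC L U n t = fcC L (GG R U) n t) ∧
  (ContDiff ℝ 2 (fcS L U n) ∧ HasCompactSupport (fcS L U n) ∧
    (∀ t, deriv (fcS L U n) t = fcS L (pT U) n t) ∧
    ∀ t, -deriv (deriv (fcS L U n)) t + (Real.pi * n / L * Real.exp t) ^ 2 * fcS L U n t -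
      R * fcS L U n t = fcS L (GG R U) n t)

/-- **Row FEP** (medium; from MUL, ODE, SWP, SHF, DFC). `B` with `θ = 0` outside `[-B, B]`, `L` so large that
`|x| + B e^t < L` on the support of `U` (the supports of `pT U`, `GG R U` are contained in it: they vanish where `U` vanishes near
the point; use the closed support; note that `L` may depend on `U`, the constant not). By SWP for `hp θ U` and SHF
`∫ (hp θ U)² = 2L ∑_n ∫ ‖fI θ(s)‖² (w_C² + w_S²) dt`, `s = ξ e^t`, `ξ = πn/L`, `w_C = fcC L U n`, `w_S = fcS L U n`. By MUL and ODE for `w_C`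
and `w_S` (`g` = coefficient of `GG R U` by DFC; `s²/(1+s²)² ≤ s²/(1+s²)`) it is
`≤ 2L C ((2 log(1+R) + 2)/R) ∑_n (A_C + A_S)`, and `A_C + A_S = ‖w_C'‖‖g_C‖ + ‖w_S'‖‖g_S‖ ≤ √(‖w_C'‖²+‖w_S'‖²) √(‖g_C‖²+‖g_S‖²)`, whose sum over
`n` is `≤ (2L)⁻¹ A` (Cauchy-Schwarz for sums, SWP for `pT U` and `GG R U`). For `hp θ (pT U)` the coefficients are
`fI θ(s) (w_C' - i w_S')`: second part of ODE. For `U - hp θ U`: second part of MUL, first part of ODE.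
`2 log(1+R) + 2 ≤ 4 (1 + log R)` for `R ≥ 1`. -/
def FEP_stmt : Prop := ∀ θ : ℝ → ℝ, TK θ → ∃ C : ℝ, 0 ≤ C ∧ ∀ (U : ℝ × ℝ → ℝ) (R : ℝ), 1 ≤ R →
  ContDiff ℝ ∞ U → HasCompactSupport U →
  let A := Real.sqrt (∫ p, pT U p ^ 2) * Real.sqrt (∫ p, GG R U p ^ 2)
  ((∫ v, θ v) = 0 → (∫ p, hp θ U p ^ 2) ≤ C * ((1 + Real.log R) / R) * A ∧
    (∫ p, hp θ (pT U) p ^ 2) ≤ C * A) ∧
  ((∫ v, θ v) = 1 → (∫ p, (U p - hp θ U p) ^ 2) ≤ C * ((1 + Real.log R) / R) * A)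

/-- **Row COO** (short-medium). `dx dy / y² = e^{-t} dx dt` for `y = e^t`. By `QU.A_INV` (last clause)
`∫_ℍ F = ∫_{0 < im w} (im w)⁻² F(w) dw`; `ℂ ≃ ℝ × ℝ` (`Complex.volume_preserving_equiv_real_prod`), Fubini, and in `y` the
substitution `y = e^t` (`MeasureTheory.integral_image_eq_integral_abs_deriv_smul` for `Real.exp`, `Real.range_exp`). Everything is
continuous with compact support in the open half-plane. -/
def COO_stmt : Prop := ∀ F : ℍ → ℝ, Continuous F → HasCompactSupport F →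
  ∫ z : ℍ, F z = ∫ p : ℝ × ℝ, Real.exp (-p.2) * F (pt p)

/-- **Row CHG** (medium). `U(x,t) = e^{-t/2} onC u (x + i e^t)`. Chain rule: `∂_t [F(pt(x,t))] = (dY F)(pt(x,t))`,
`e^t ∂_x [F(pt(x,t))] = (dX F)(pt(x,t))` for `F` of class `CD 1`. So `U_t = e^{-t/2} (Yu - u/2) = e^{-t/2} Du`, `U_tt = e^{-t/2} D²u`,
`e^{2t} U_xx = e^{-t/2} X²u`, and `Δu = -X²u - D²u + u/4` (`QU.A_CA2`: `Δ = -X² - Y² + Y`, `D² = Y² - Y + 1/4`). `pt` is a homeomorphism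
`ℝ × ℝ → ℍ` (compact support). Last clause: `(v e^t) +ᵥ pt(x,t) = pt(x + v e^t, t)`. -/
def CHG_stmt : Prop :=
  (∀ u : ℍ → ℝ, CD ∞ u → HasCompactSupport u →
    let U : ℝ × ℝ → ℝ := fun p => Real.exp (-p.2 / 2) * u (pt p)
    ContDiff ℝ ∞ U ∧ HasCompactSupport U ∧
    (∀ p, pT U p = Real.exp (-p.2 / 2) * dD u (pt p)) ∧
    ∀ (μ : ℝ) (p : ℝ × ℝ), GG (μ - 1 / 4) U p = Real.exp (-p.2 / 2) * (lap u (pt p) - μ * u (pt p))) ∧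
  ∀ (θ : ℝ → ℝ) (F : ℍ → ℝ) (p : ℝ × ℝ),
    hp θ (fun q => Real.exp (-q.2 / 2) * F (pt q)) p = Real.exp (-p.2 / 2) * hav θ F (pt p)

/-- **Row HV0** (short). `∫ θ' = 0` for smooth compactly supported `θ`, also for `vθ(v)`. -/
def HV0_stmt : Prop := ∀ θ : ℝ → ℝ, TK θ → TK (deriv θ) ∧ TK (eu θ) ∧ (∫ v, deriv θ v) = 0 ∧ (∫ v, eu θ v) = 0

/-- **Row HV1** (medium). `onC (hav θ u) w = ∫ θ(v) onC u (w + v im w) dv` for `0 < im w`; the maps `w ↦ w + v im w` are real linear and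
preserve the half-plane. Smoothness: for `w` near `w₀` and `v` in the support of `θ` the points `w + v im w` stay in a compact
subset of the half-plane; differentiate under the integral (induction on the order with the rules of HV2: the
first derivatives of `hav θ u` are combinations of `hav θ' u`-type functions of derivatives; or
`contDiffOn_convolution_right_with_param`-like tools, or `ContDiffOn.integral`-type lemmas for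
a compact interval). Support: `{z : ∃ v, |v| ≤ B, z + v im z ∈ supp u}` is compact (image of a compact set under
`(v, z) ↦ (-v im z) +ᵥ z`). -/
def HV1_stmt : Prop := ∀ (θ : ℝ → ℝ) (u : ℍ → ℝ), TK θ →
  (Continuous u → HasCompactSupport u → Continuous (hav θ u) ∧ HasCompactSupport (hav θ u)) ∧
  (CD ∞ u → CD ∞ (hav θ u))

/-- **Row HV2** (medium). Differentiate `onC (hav θ u) w = ∫ θ(v) onC u (w + v im w) dv`. Direction `1`: `y ∂_x` of the integrand is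
`θ(v) (Xu)(z_v)`, `z_v = (v y) +ᵥ z` (`im z_v = im z`). As `∂_v [u(z_v)] = (Xu)(z_v)`, integration by parts in `v` gives the second form.
Direction `i`: `y ∂_y` of the integrand is `θ(v) (Yu)(z_v) + v θ(v) (Xu)(z_v)`, and
`∫ v θ(v) ∂_v[u(z_v)] dv = -∫ (vθ)'(v) u(z_v) dv`. -/
def HV2_stmt : Prop := ∀ (θ : ℝ → ℝ) (u : ℍ → ℝ), TK θ → CD ∞ u → ∀ z : ℍ,
  dX (hav θ u) z = hav θ (dX u) z ∧ dX (hav θ u) z = -hav (deriv θ) u z ∧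
  dY (hav θ u) z = hav θ (dY u) z - hav (eu θ) u z

/-- **Row HAL** (short-medium; from COO). Cauchy-Schwarz: `(hav θ u z)² ≤ (∫|θ|) ∫ |θ(v)| u(z_v)² dv`; in the coordinates of COO
`∫ e^{-t} u(pt(x + v e^t, t))² dx dt = ∫ e^{-t} u(pt(x,t))² dx dt` for every `v` (translation in `x`), Fubini. -/
def HAL_stmt : Prop := ∀ (θ : ℝ → ℝ) (u : ℍ → ℝ), TK θ → Continuous u → HasCompactSupport u →
  ∫ z : ℍ, hav θ u z ^ 2 ≤ (∫ v, |θ v|) ^ 2 * ∫ z : ℍ, u z ^ 2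

/-- **Row FEN** (short-medium; from FEP, COO, CHG, HV1). `∫_ℍ (hav θ u)² = ∫ e^{-t} (hav θ u)²(pt p) dp = ∫ (hp θ U)²` for
`U = e^{-t/2} u ∘ pt`, the same for `Du`, `u - hav θ u` and `f = Δu - μu`; `R = μ - 1/4 ≥ 1`. -/
def FEN_stmt : Prop := ∀ θ : ℝ → ℝ, TK θ → ∃ C : ℝ, 0 ≤ C ∧ ∀ (u : ℍ → ℝ) (μ : ℝ), 5 / 4 ≤ μ → CD ∞ u →
  HasCompactSupport u →
  let A := Real.sqrt (∫ z : ℍ, dD u z ^ 2) * Real.sqrt (∫ z : ℍ, (lap u z - μ * u z) ^ 2)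
  let R := μ - 1 / 4
  ((∫ v, θ v) = 0 → (∫ z : ℍ, hav θ u z ^ 2) ≤ C * ((1 + Real.log R) / R) * A ∧
    (∫ z : ℍ, hav θ (dD u) z ^ 2) ≤ C * A) ∧
  ((∫ v, θ v) = 1 → (∫ z : ℍ, (u z - hav θ u z) ^ 2) ≤ C * ((1 + Real.log R) / R) * A)

/-- **Row IDS** (medium). `D`, `X` are skew, `∫ (Yk) F = -∫ k (YF - F)`, `∫ (Xk) F = -∫ k XF` (`QU.A_DXI`, as in IDN/REL of QU). Let
`F = (Dv)² + R v²`, `E = D²v + R v`. `YF - F = 2 Dv D(Dv) + 2R v Dv = 2 Dv E` (as `Y(a²) - a² = 2a Da`), `XF = 2(Dv XDv + R v Xv)`.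
`Δg = -X(Xg) - Y(Yg) + Yg` (`QU.A_CA2`), so `∫ (Δg) F = 2∫(Xg)(Dv XDv + R v Xv) + 2∫(Yg) Dv E - 2∫ g Dv E`: Cauchy-Schwarz. Second:
`∫ g (Dv)² = -∫ v D(g Dv) = -∫ g v D²v - ∫ (Yg) v Dv = R ∫ g v² - ∫ g v E - ∫ (Yg) v Dv` (`D(ab) = (Ya) b + a Db`). -/
def IDS_stmt : Prop := ∀ (g v : ℍ → ℝ) (C R : ℝ), FB g C → CD ∞ v → HasCompactSupport v → 0 ≤ R →
  let ND := Real.sqrt (∫ z : ℍ, dD v z ^ 2)
  let Nv := Real.sqrt (∫ z : ℍ, v z ^ 2)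
  let NX := Real.sqrt (∫ z : ℍ, dX v z ^ 2)
  let NXD := Real.sqrt (∫ z : ℍ, dX (dD v) z ^ 2)
  let NE := Real.sqrt (∫ z : ℍ, (dD (dD v) z + R * v z) ^ 2)
  |∫ z : ℍ, lap g z * (dD v z ^ 2 + R * v z ^ 2)| ≤ 4 * C * (ND * NXD + R * (Nv * NX) + ND * NE) ∧
  |(∫ z : ℍ, g z * dD v z ^ 2) - R * ∫ z : ℍ, g z * v z ^ 2| ≤ C * (Nv * NE + Nv * ND)

/-- **Row UZE** (medium; from FEN, HV0, HV1, HV2, HAL). `v = hav ψ u`, `θ₁ = eu ψ`, `θ₂ = eu θ₁`. `Xv = -hav ψ' u`.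
`Dv = hav ψ (Du) - hav θ₁ u`. `XDv = -hav ψ' (Du) + hav θ₁' u`. `D²v = hav ψ (D²u) - 2 hav θ₁ (Du) + hav θ₂ u` and
`D²u = -f - X²u - R u`, `hav ψ (X²u) = hav ψ'' u`, so `D²v + R v = -hav ψ f - hav ψ'' u - 2 hav θ₁ (Du) + hav θ₂ u`. The kernels
`ψ', ψ'', θ₁, θ₁', θ₂` have integral `0` (HV0): use FEN for them, HAL for `hav ψ`, `hav θ₁`, `(a+b+c+d)² ≤ 4(a²+b²+c²+d²)`,
`(1 + log R)/R ≤ 1`. (`Du`, `f` are `CD ∞` with compact support; linearity of `hav` in the function.) -/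
def UZE_stmt : Prop := ∀ ψ : ℝ → ℝ, TK ψ → (∫ v, ψ v) = 1 → ∃ C : ℝ, 0 ≤ C ∧ ∀ (u : ℍ → ℝ) (μ : ℝ),
  5 / 4 ≤ μ → CD ∞ u → HasCompactSupport u →
  let R := μ - 1 / 4
  let ND := Real.sqrt (∫ z : ℍ, dD u z ^ 2)
  let Nf := Real.sqrt (∫ z : ℍ, (lap u z - μ * u z) ^ 2)
  let v := hav ψ u
  CD ∞ v ∧ HasCompactSupport v ∧
  (∫ z : ℍ, (u z - v z) ^ 2) ≤ C * ((1 + Real.log R) / R) * (ND * Nf) ∧
  (∫ z : ℍ, dX v z ^ 2) ≤ C * ((1 + Real.log R) / R) * (ND * Nf) ∧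
  (∫ z : ℍ, dX (dD v) z ^ 2) ≤ C * (ND * Nf) ∧
  (∫ z : ℍ, (dD (dD v) z + R * v z) ^ 2) ≤ C * (Nf ^ 2 + ND * Nf) ∧
  (∫ z : ℍ, dD v z ^ 2) ≤ C * (ND ^ 2 + ∫ z : ℍ, u z ^ 2) ∧
  (∫ z : ℍ, v z ^ 2) ≤ C * ∫ z : ℍ, u z ^ 2

/-- **Row ALG** (medium; from UZE, IDS). `g = conv κ f`, `G = Δg = conv (LL κ) f` (`QU.A_CVS`), both satisfy `FB · C₀` (`QU.A_FRB`,
`QU.A_BDD`, `QU.A_LAK`). `ψ` = a normalised smooth bump. `a = ∫u²`, `η = (∫(Δu - μu)²)^{1/2}`; `a = 0` is trivial (`u = 0`). Let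
`x = log(2+μ) μ^{-1/2} η a^{-1/2}`; the claim is `|∫ G u²| ≤ C (√x + μ^{-1/2}) a`. If `x > 1` it is trivial. Let `x ≤ 1`. Then
`η ≤ √μ √a` (`log(2+μ) ≥ 1`), `ND² ≤ R a + η √a ≤ 2 μ a` (`QU.A_IDN`, second identity), `ND η ≤ √2 μ a x / log(2+μ)`, hence
(`(1 + log R) ≤ 2 log(2+μ)`, `μ ≤ (5/4) R`) by UZE: `‖u-v‖², ‖Xv‖² ≤ C a x`, `‖XDv‖², ‖D²v+Rv‖² ≤ C μ a x`, `‖Dv‖² ≤ C μ a`, `‖v‖² ≤ C a`.
IDS for `g`: `|∫ G ((Dv)² + R v²)| ≤ C μ a √x`. IDS (second part) for `G`: `|∫ G (Dv)² - R ∫ G v²| ≤ C √μ a`. So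
`2R |∫ G v²| ≤ C (μ √x + √μ) a`. And `|∫ G (u² - v²)| ≤ C₀ ‖u-v‖ (‖u‖ + ‖v‖) ≤ C √x a`. -/
def ALG_stmt : Prop := ∀ (Γ : Subgroup SL(2, ℝ)) (κ : ℝ → ℝ) (f : ℍ → ℝ), SurfaceGroup Γ → RK κ → Inv Γ f →
  ∃ C : ℝ, 0 ≤ C ∧ ∀ (u : ℍ → ℝ) (μ : ℝ), 5 / 4 ≤ μ → CD ∞ u → HasCompactSupport u →
  let a := ∫ z : ℍ, u z ^ 2
  let η := Real.sqrt (∫ z : ℍ, (lap u z - μ * u z) ^ 2)
  |∫ z : ℍ, lap (conv κ f) z * u z ^ 2| ≤
    C * (Real.sqrt (Real.log (2 + μ) / Real.sqrt μ * (η * Real.sqrt a)) * Real.sqrt a + a / Real.sqrt μ)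

/-- **Row KLF** (medium-long; from ALG; the target `KLU_stmt`; uses `QU.A_KLI, A_MEA, A_CVB, A_CVS, A_LAK, A_BDD, A_DOB`; model: the file
`Pool/Agent/helper65/QU/KLI.lean`). Suppose not: for every `j : ℕ` there are `μ_j ≥ 0`, `u_j` with
`∫ h u² > δ a + j log²(2+μ)/(1+μ) η²` (`a = ∫u²`, `η² = ∫(Δu-μu)²`). `|h| ≤ m`, so `a > 0` and `j log²(2+μ)/(1+μ) η² ≤ m a`.
(i) `μ_j → ∞`: for `b` given, KLI with `b`, `δ/2` gives `C_b`; if `μ_j ≤ b` then `(δ/2) a < C_b η² ≤ C_b m a (1+b)/(j log² 2)`, so `j` is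
bounded. (ii) `α(g) = lim ∫ g u_j² / a_j` along the hyperfilter, it is in `BFun Γ`. (iii) ALG: `α(Δ(conv κ f)) = 0`, since
`|α_j| ≤ C (√x_j + μ_j^{-1/2})`, `x_j = log(2+μ) μ^{-1/2} η a^{-1/2} ≤ √((1+μ)/μ) √(m/j) → 0`. (iv) MEA: `α(h) vol F = α(1) ∫_F h = 0`,
`vol F > 0`, but `α(h) ≥ δ`. -/
def KLF_stmt : Prop := ALG_stmt → KLU_stmt

end Pool.Agent.QX
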